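import Pool.Agent.H95.Cost

set_option autoImplicit false
open Pool.Agent.H95.Cost

theorem Pool.Agent.Results.MP_cf5fc4_an.Yes.result (n m : ℕ) (hm : m < n)
    (A : Cn n →L[ℂ] Cn n) (B : Cn m →L[ℂ] Cn n) (F : Cn n →L[ℂ] Cn m)
    (γ : ℝ) (h : Decay (loop A B F).toLinearMap γ) :
    γ / ((2 * (n + 1)) ^ n * (‖A‖ + 1)) ^ 2 ≤ ‖cost (loop A B F)‖ :=
  Pool.Agent.H95.Cost.main' n m hm A B F γ h
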